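import Pool.Agent.Helper65.HF.StC

/-!
Project HF, module BET: comparison of the start bounds.
-/

namespace Pool.Agent.Helper40.HF

open Pool.Agent.Helper65.HF

theorem leL_up {x : ℕ} {l l' : List ℕ} (h : LeL l l') (hl : ∀ y ∈ l, x ≤ y) :
    ∀ y ∈ l', x ≤ y := by
  induction h with
  | nil => simp
  | cons h1 _ ih =>
    intro y hy
    rcases List.mem_cons.1 hy with rfl | hy
    · exact (hl _ List.mem_cons_self).trans h1
    · exact ih (fun z hz => hl z (List.mem_cons_of_mem _ hz)) y hy

/-- in a nondecreasing list all entries are at least `x` as soon as the first `t ≥ 1` are -/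
theorem take_all {x t : ℕ} {v : List ℕ} (hv : Srt v) (h : ∀ y ∈ v.take (t + 1), x ≤ y) :
    ∀ y ∈ v, x ≤ y := by
  cases v with
  | nil => simp
  | cons b w =>
    have h1 : x ≤ b := h b (by simp)
    intro y hy
    rcases List.mem_cons.1 hy with rfl | hy
    · exact h1
    · exact h1.trans ((List.pairwise_cons.1 hv).1 y hy)

/-- MODULE BET. -/
theorem hBET : Pool.Agent.Helper65.HF.sBET := by
  classical
  intro hALU M ν i t u a x hax
  have hsub : ∀ s, tl M ν i s x ⊆ tl M ν i s a := by
    intro s τ hτ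
    rw [mem_tl] at hτ ⊢
    exact ⟨hτ.1, fun y hy => hax.trans (hτ.2.1 y hy), hτ.2.2⟩
  cases t with
  | zero =>
    have h0 : tl M ν i 0 x = tl M ν i 0 a := by
      refine Finset.Subset.antisymm (hsub 0) ?_
      intro τ hτ
      rw [mem_tl] at hτ ⊢
      refine ⟨hτ.1, ?_, hτ.2.2⟩
      rw [List.eq_nil_of_length_eq_zero hτ.1.1]
      simp
    rw [h0, mul_comm]
    exact Nat.mul_le_mul_left _ (Finset.card_le_card (hsub _))
  | succ t =>
    have h1 := hALU M ν i (t + 1) u a (fun τ => ∀ y ∈ τ, x ≤ y)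
      (fun τ _ τ' _ h hU => leL_up h hU)
    have h2 : num (tl M ν i (t + 1) a) (fun τ => ∀ y ∈ τ, x ≤ y) =
        (tl M ν i (t + 1) x).card := by
      unfold num
      congr 1
      ext τ
      simp only [Finset.mem_filter, mem_tl]
      constructor
      · rintro ⟨⟨h3, _, h4⟩, h5⟩
        exact ⟨h3, h5, h4⟩
      · rintro ⟨h3, h5, h4⟩
        exact ⟨⟨h3, fun y hy => hax.trans (h5 y hy), h4⟩, h5⟩
    have h6 : num (tl M ν i (t + 1 + u) a) (fun v => ∀ y ∈ v.take (t + 1), x ≤ y) =
        (tl M ν i (t + 1 + u) x).card := by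
      unfold num
      congr 1
      ext τ
      simp only [Finset.mem_filter, mem_tl]
      constructor
      · rintro ⟨⟨h3, _, h4⟩, h5⟩
        exact ⟨h3, take_all h3.2.1 h5, h4⟩
      · rintro ⟨h3, h5, h4⟩
        exact ⟨⟨h3, fun y hy => hax.trans (h5 y hy), h4⟩,
          fun y hy => h5 y (List.mem_of_mem_take hy)⟩
    rw [h2, h6] at h1
    exact h1

end Pool.Agent.Helper40.HF
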